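import Pool.Agent.H86.SQ.Stark

/-!
# The Stark-Tate conjecture over real quadratic fields: moduli with one ramified prime

`K` is a real quadratic field with the real embeddings `σ₁ ≠ σ₂`, `H / K` is a finite abelian
extension, all of whose embeddings above `σ₁` are real, for instance the ray class field of
modulus `𝔪 ∞₂`, `τ` is the complex conjugation of `H` above `σ₂`, and `F` is its fixed field
(`Setting`); in the example `F` is the ray class field of modulus `𝔪` and `Gal(F/K)` is the ray
class group `Cl_𝔪`.  `ε A`, `A ∈ G`, are units of `H` which satisfy the conditions 1 - 3 of the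
problem (`StarkConditions`), with any real numbers `z A` in place of the `ζ'(0, A)`.

We study the remaining part of Q1, the condition that the `H(√(ε A)) / K` are abelian
(`AbelianRoot`).  Let `M` be a field between `K` and `F` such that

* `[M : K]` is odd and the narrow class number of `M` is odd, or `M = K` and at most one prime of
  `K` is ramified over `ℚ`, that is, `K` is the field of the square root of two or of a prime which
  is one modulo four (`OddNarrow`);
* at most one prime of `F` is ramified over `M`, and `Gal(F/K)` fixes each prime of `F` which is
  ramified in `H` (`RamifiedStable`).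

Then the two-part of the condition holds automatically: the `H(√(ε A)) / K` are abelian if and only
if `ε A * ε (A * B)` is a square in `H` for all `A` and all `B` of odd order which act trivially on
`M`.  In particular they are abelian if `[F : M]` is a power of two.

By class field theory all the hypotheses hold with `M = K`, for all powers `𝔪` of all prime ideals,
also those above two, if `K` is the field of the square root of two or of a prime which is one modulo
four and the class number of `K` is one.

The proof.  The number `b = 2 + ε + 1 / ε` is a totally positive element of `F` with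
`b ε = (1 + ε) ^ 2`, and its multiplicity is even at all primes which are not ramified in `H`.  So
for all `σ ∈ Gal(F/K)` the element `b σ(b)` of `F` is totally positive with even divisor.  In a
quadratic extension of totally real fields with at most one ramified prime the property that such
elements are squares is inherited (`evenSquares_quad`), hence also in Galois extensions of two-power
degree (`evenSquares_tower`), and a norm argument leads to the odd part (`odd_part`).
-/

set_option autoImplicit false
set_option linter.unusedSectionVars false

namespace Pool.Agent.Results.MP_1ef7cf_nt.AutomaticSquareRoots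

open NumberField IsDedekindDomain
open Pool.Agent.H86.SQ

/-- The narrow class number of `M` is odd, or `M` is a quadratic field and at most one prime of `M`
is ramified over `ℚ`. -/
def OddNarrow (M : Type) [Field M] [NumberField M] : Prop :=
  NarrowClassNumberOdd M ∨ (Module.finrank ℚ M = 2 ∧
    ∀ Q Q' : HeightOneSpectrum (𝓞 M), RamifiedOver ℚ Q → RamifiedOver ℚ Q' → Q = Q')

theorem result {K F H G : Type} [Field K] [NumberField K] [Field F] [NumberField F] [Field H]
    [NumberField H] [Algebra K F] [Algebra F H] [Algebra K H] [IsScalarTower K F H]
    [IsAbelianGalois K H] [CommGroup G] (σ₁ σ₂ : K →+* ℝ) (τ : H ≃ₐ[F] H)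
    (hS : Setting σ₁ σ₂ τ) (Art : G ≃* (H ≃ₐ[K] H)) (ι : H →+* ℝ)
    (hι : ∀ x : K, ι (algebraMap K H x) = σ₁ x) (z : G → ℝ) (ε : G → (𝓞 H)ˣ)
    (hε : StarkConditions σ₂ Art ι z ε)
    (M : Type) [Field M] [NumberField M] [Algebra K M] [Algebra M F] [IsScalarTower K M F]
    (hdeg : Odd (Module.finrank K M)) (hM : OddNarrow M)
    (hone : ∀ Q Q' : HeightOneSpectrum (𝓞 F), RamifiedOver M Q → RamifiedOver M Q' → Q = Q')
    (hR : RamifiedStable K F H) :
    ((∀ A : G, AbelianRoot K ((ε A : 𝓞 H) : H)) ↔
      ∀ A B : G, Odd (orderOf B) →
        (∀ x : M, Art B (algebraMap F H (algebraMap M F x)) = algebraMap F H (algebraMap M F x)) →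
        IsSquare (((ε A : 𝓞 H) : H) * ((ε (A * B) : 𝓞 H) : H))) ∧
    ((∃ a : ℕ, Module.finrank M F = 2 ^ a) → ∀ A : G, AbelianRoot K ((ε A : 𝓞 H) : H)) := by
  have hgood := good_of_stark (σ₁ := σ₁) Art ι hι z ε hε
  have hFK : IsAbelianGalois K F := IsAbelianGalois.tower_bot K F H
  have hF := allReal hS
  have hE : EvenSquares M := by
    rcases hM with hM | ⟨h2, hM⟩
    · exact hM.evenSquares
    · exact evenSquares_one h2 hF.down hM
  refine ⟨⟨fun h A B _ _ => ?_, fun h A => ?_⟩, fun ⟨a, ha⟩ A => ?_⟩
  · rw [← hε.art A B]
    exact isSquare_of_abelianRoot (h A) (Art B)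
  · refine abelian_E hS M hdeg hE hone hR (ε A) (hgood A) (fun φ hφ hx => ?_)
    have h1 : Art (Art.symm φ) = φ := MulEquiv.apply_symm_apply Art φ
    have h2 : orderOf (Art.symm φ) = orderOf φ := MulEquiv.orderOf_eq Art.symm φ
    have h3 := h A (Art.symm φ) (by rw [h2]; exact hφ) (fun x => by rw [h1]; exact hx x)
    rwa [← hε.art A (Art.symm φ), h1] at h3
  · have hFM : IsGalois M F := IsGalois.tower_top_of_isGalois K M F
    have hfd' : FiniteDimensional M F := Module.Finite.of_restrictScalars_finite ℚ M F
    exact abelian_T hS M hdeg hE (a := a) (by rw [IsGalois.card_aut_eq_finrank, ha]) hone hR (ε A)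
      (hgood A)

end Pool.Agent.Results.MP_1ef7cf_nt.AutomaticSquareRoots
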