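import Pool.Agent.H86.SQ.Stark

/-!
# The Stark-Tate conjecture over real quadratic fields: class number criteria for the square roots

`K` is a real quadratic field with the real embeddings `σ₁ ≠ σ₂`, `H / K` is a finite abelian
extension, all of whose embeddings above `σ₁` are real, for instance the ray class field of
modulus `𝔪 ∞₂`, `τ` is the complex conjugation of `H` above `σ₂`, and `F` is its fixed field
(`Setting`); in the example `F` is the ray class field of modulus `𝔪` and `Gal(F/K)` is the ray
class group `Cl_𝔪`.  `ε A`, `A ∈ G`, are units of `H` which satisfy the conditions 1 - 3 of the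
problem (`StarkConditions`), with any real numbers `z A` in place of the `ζ'(0, A)`.

We give criteria in terms of the field `F` for the remaining part of Q1, the condition that the
`H(√(ε A)) / K` are abelian (`AbelianRoot`).  There is no condition on the ramification of `F / K`
and on the class number of `K`.

1. Suppose that the narrow class number of `F` is odd and `Gal(F/K)` fixes the primes of `F` which
   are ramified in `H` (the primes of `K` below do not split in `F`).  Then all `ε A * ε B` are
   squares in `H`, so the field `H(√(ε A))` does not depend on `A` and is Galois over `K`, and it is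
   abelian over `K` if `Gal(F/K)` has at most one subgroup of index two.
2. Suppose that `[F : K]` is odd, `Gal(F/K)` acts trivially on the totally positive elements of `F`
   with even divisor modulo squares, and `Gal(F/K)` fixes the primes of `F` which are ramified in
   `H`.  Then the `H(√(ε A)) / K` are abelian.
3. Suppose that the narrow class number of `F` is odd and for every prime `p` of `F` which is
   ramified in `H` there is a totally positive integer `k` of `K` whose multiplicity is odd at `p`
   and even at all other primes of `F`.  Then the `H(√(ε A)) / K` are abelian, for any group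
   `Gal(F/K)`.

The reason, without any hypothesis: `b A = 2 + ε A + 1 / ε A` is a totally positive integer of `F`,
`b A * ε A` is a square in `H`, and the multiplicity of `b A` is even at all primes of `F` which are
not ramified in `H` (4).
-/

set_option autoImplicit false
set_option linter.unusedSectionVars false

namespace Pool.Agent.Results.MP_1ef7cf_nt.ClassNumberCriteria

open NumberField IsDedekindDomain
open Pool.Agent.H86.SQ

/-- `Gal(F/K)` has at most one subgroup of index two. -/
def RankAtMostOne (K F : Type) [Field K] [Field F] [Algebra K F] : Prop :=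
  ∀ N₁ N₂ : Subgroup (F ≃ₐ[K] F), N₁.index = 2 → N₂.index = 2 → N₁ = N₂

/-- `Gal(F/K)` acts trivially on the totally positive elements with even divisor modulo
squares. -/
def TrivialOnEven (K F : Type) [Field K] [Field F] [NumberField F] [Algebra K F] : Prop :=
  ∀ X : 𝓞 F, X ≠ 0 → (∀ f : F →+* ℝ, 0 < f (X : F)) →
    (∀ p : HeightOneSpectrum (𝓞 F), IsSquare (p.valuation F (X : F))) →
    ∀ σ : F ≃ₐ[K] F, IsSquare ((X : F) * σ (X : F))

/-- The classes of the ramified primes modulo squares come from `K`. -/
def RamifiedFromBase (K F H : Type) [Field K] [NumberField K] [Field F] [NumberField F] [Field H]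
    [NumberField H] [Algebra K F] [Algebra F H] : Prop :=
  ∀ p : HeightOneSpectrum (𝓞 F), RamifiedIn H p → ∃ k : 𝓞 K, k ≠ 0 ∧
    (∀ f : K →+* ℝ, 0 < f (k : K)) ∧ ¬ IsSquare (p.valuation F (algebraMap K F (k : K))) ∧
    ∀ q : HeightOneSpectrum (𝓞 F), q ≠ p → IsSquare (q.valuation F (algebraMap K F (k : K)))

theorem result {K F H G : Type} [Field K] [NumberField K] [Field F] [NumberField F] [Field H]
    [NumberField H] [Algebra K F] [Algebra F H] [Algebra K H] [IsScalarTower K F H]
    [IsAbelianGalois K H] [CommGroup G] (σ₁ σ₂ : K →+* ℝ) (τ : H ≃ₐ[F] H)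
    (hS : Setting σ₁ σ₂ τ) (Art : G ≃* (H ≃ₐ[K] H)) (ι : H →+* ℝ)
    (hι : ∀ x : K, ι (algebraMap K H x) = σ₁ x) (z : G → ℝ) (ε : G → (𝓞 H)ˣ)
    (hε : StarkConditions σ₂ Art ι z ε) :
    -- 1.
    (NarrowClassNumberOdd F → RamifiedStable K F H →
      (∀ A B : G, IsSquare (((ε A : 𝓞 H) : H) * ((ε B : 𝓞 H) : H))) ∧
      (RankAtMostOne K F → ∀ A : G, AbelianRoot K ((ε A : 𝓞 H) : H))) ∧
    -- 2.
    (Odd (Module.finrank K F) → TrivialOnEven K F → RamifiedStable K F H →
      ∀ A : G, AbelianRoot K ((ε A : 𝓞 H) : H)) ∧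
    -- 3.
    (NarrowClassNumberOdd F → RamifiedFromBase K F H →
      ∀ A : G, AbelianRoot K ((ε A : 𝓞 H) : H)) ∧
    -- 4.
    (∀ A : G, ∃ b : 𝓞 F,
      algebraMap F H (b : F) = 2 + ((ε A : 𝓞 H) : H) + ((ε A : 𝓞 H) : H)⁻¹ ∧
      b ≠ 0 ∧ (∀ f : F →+* ℝ, 0 < f (b : F)) ∧
      IsSquare (algebraMap F H (b : F) * ((ε A : 𝓞 H) : H)) ∧
      ∀ p : HeightOneSpectrum (𝓞 F), ¬ RamifiedIn H p → IsSquare (p.valuation F (b : F))) := by
  have hgood := good_of_stark (σ₁ := σ₁) Art ι hι z ε hε
  have hFK : IsAbelianGalois K F := IsAbelianGalois.tower_bot K F H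
  have hfd : FiniteDimensional K F := Module.Finite.of_restrictScalars_finite ℚ K F
  have hrank : RankAtMostOne K F →
      ∃ σ₀ : F ≃ₐ[K] F, ∀ σ : F ≃ₐ[K] F, ∃ ρ, σ = ρ ^ 2 ∨ σ = σ₀ * ρ ^ 2 := fun h =>
    rank_of_unique' (fun f g => (IsMulCommutative.is_comm (M := F ≃ₐ[K] F)).comm f g) h
  refine ⟨fun hN hR => ⟨fun A B => ?_, fun hc A =>
      abelian_A hS hN.evenSquares hR (hrank hc) (ε A) (hgood A)⟩,
    fun ho hV hR A => abelian_A' hS ho hV hR (ε A) (hgood A),
    fun hN hB A => abelian_B hS hN.evenSquares hB (ε A) (hgood A), fun A => ?_⟩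
  · obtain ⟨b, hb⟩ := exists_F hS (hgood A)
    obtain ⟨φ, hφ⟩ : ∃ φ : H ≃ₐ[K] H, φ = Art (A⁻¹ * B) := ⟨_, rfl⟩
    have hAB : φ ((ε A : 𝓞 H) : H) = ((ε B : 𝓞 H) : H) := by
      rw [hφ, hε.art, mul_inv_cancel_left]
    obtain ⟨X, hX, hX0, hpos, hv⟩ := nice_mul (nice_of hS (ε A) (hgood A) b hb)
      (nice_conj hS (ε A) (hgood A) b hb (φ.restrictNormal F))
      (fun p hp => hR p hp (φ.restrictNormal F) b)
    obtain ⟨w, hw⟩ := hN.evenSquares (X : F) (by
      intro h0
      exact hX0 (RingOfIntegers.ext (h0.trans (map_zero (algebraMap (𝓞 F) F)).symm))) hpos hv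
    rw [hX] at hw
    have h7 := conj_b (K := K) hb φ
    obtain ⟨a1, a2⟩ := one_add_ne (hgood A)
    obtain ⟨a3, a4⟩ := one_add_ne ((hgood A).map φ)
    have e1 := identity a1
    have e2 := identity a3
    rw [← hb] at e1
    rw [← h7] at e2
    have hwH := congrArg (algebraMap F H) hw
    rw [map_mul, map_mul] at hwH
    have hw0 : algebraMap F H w ≠ 0 := by
      intro h0
      rw [h0, mul_zero] at hwH
      rcases mul_eq_zero.1 hwH with h | h
      · rw [h, zero_mul] at e1
        exact a2 (by simpa using e1.symm)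
      · rw [h, zero_mul] at e2
        exact a4 (by simpa using e2.symm)
    rw [← hAB]
    refine ⟨(1 + ((ε A : 𝓞 H) : H)) * (1 + φ ((ε A : 𝓞 H) : H)) / algebraMap F H w, ?_⟩
    rw [div_mul_div_comm, eq_div_iff (mul_ne_zero hw0 hw0), ← hwH]
    linear_combination (algebraMap F H ((φ.restrictNormal F) b)) * (φ ((ε A : 𝓞 H) : H)) * e1 +
      (1 + ((ε A : 𝓞 H) : H)) ^ 2 * e2
  · obtain ⟨b, hb⟩ := exists_integer hS (ε A) (hgood A)
    have hn := nice_of hS (ε A) (hgood A) (b : F) hb
    refine ⟨b, hb, ?_, hn.pos, ?_, hn.even⟩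
    · intro h0
      apply hn.ne
      rw [h0]
      exact map_zero (algebraMap (𝓞 F) F)
    · rw [hb, identity (one_add_ne (hgood A)).1]
      exact ⟨_, pow_two _⟩

end Pool.Agent.Results.MP_1ef7cf_nt.ClassNumberCriteria
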